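import Pool.Agent.W564.MM.Defs

/-!
# Project MM: asymptotic independence of the coordinates of the orbit (part KEY)
-/

open MeasureTheory Filter Topology Finset

namespace Pool.Agent.W215.MM

open Pool.Agent.W564.MM

theorem probT1 : IsProbabilityMeasure (volume : Measure T1) := ⟨UnitAddCircle.measure_univ⟩

theorem probT2 : IsProbabilityMeasure (volume : Measure (T1 × T1)) := by
  have := probT1
  rw [Measure.volume_eq_prod]
  infer_instance

theorem fourier_add_coe (n : ℤ) (x : T1) (d : ℝ) :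
    (fourier n (x + (d : T1)) : ℂ) =
      fourier n x * Complex.exp (Complex.I * ((2 * Real.pi * (n * d) : ℝ) : ℂ)) := by
  induction x using QuotientAddGroup.induction_on with
  | H y =>
    have h : ((y : T1) + (d : T1)) = ((y + d : ℝ) : T1) := by simp
    change (fourier n ((y : T1) + (d : T1)) : ℂ) = fourier n (y : T1) * _
    rw [h, fourier_coe_apply, fourier_coe_apply, ← Complex.exp_add]
    congr 1
    push_cast
    ring

theorem norm_fourier (n : ℤ) (x : T1) : ‖(fourier n x : ℂ)‖ = 1 := by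
  rw [fourier_apply]
  exact Circle.norm_coe _

theorem norm_exp_I (x : ℝ) : ‖Complex.exp (Complex.I * (x : ℂ))‖ = 1 := by
  rw [mul_comm]
  exact Complex.norm_exp_ofReal_mul_I x

theorem exp_lip (x y : ℝ) :
    ‖Complex.exp (Complex.I * (x : ℂ)) - Complex.exp (Complex.I * (y : ℂ))‖ ≤ |x - y| := by
  have h : Complex.exp (Complex.I * (x : ℂ)) - Complex.exp (Complex.I * (y : ℂ)) =
      Complex.exp (Complex.I * (y : ℂ)) * (Complex.exp (Complex.I * ((x - y : ℝ) : ℂ)) - 1) := by
    rw [mul_sub, ← Complex.exp_add]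
    congr 2
    · push_cast
      ring
    · ring
  rw [h, norm_mul, norm_exp_I, one_mul]
  exact Real.norm_exp_I_mul_ofReal_sub_one_le

/-- The product of characters. -/
noncomputable def chi (a : ℝ) (c : ℕ → ℤ) (r : ℕ) (p : T1 × T1) : ℂ :=
  ∏ i ∈ Finset.range (r + 1), (fourier (c i) (xx a i p) : ℂ)

/-- The product of derivatives. -/
noncomputable def PP (a : ℝ) (r : ℕ) (p : T1 × T1) : ℝ :=
  ∏ i ∈ Finset.Ico 1 r, (2 * Real.pi * cs (xx a i p))

theorem norm_chi (a : ℝ) (c : ℕ → ℤ) (r : ℕ) (p : T1 × T1) : ‖chi a c r p‖ = 1 := by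
  unfold chi
  rw [norm_prod]
  exact Finset.prod_eq_one fun i _ => norm_fourier _ _

theorem prod_shift (r : ℕ) (c : ℕ → ℤ) (u : ℕ → T1) (D : ℕ → ℝ) :
    ∏ i ∈ Finset.range (r + 1), (fourier (c i) (u i + (D i : T1)) : ℂ) =
      (∏ i ∈ Finset.range (r + 1), (fourier (c i) (u i) : ℂ)) *
        Complex.exp (Complex.I *
          ((∑ i ∈ Finset.range (r + 1), 2 * Real.pi * (c i * D i) : ℝ) : ℂ)) := by
  rw [Complex.ofReal_sum, Finset.mul_sum, Complex.exp_sum, ← Finset.prod_mul_distrib]
  exact Finset.prod_congr rfl fun i _ => fourier_add_coe _ _ _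

/-- The effect of the shift on the product of characters. -/
theorem shift_est (r : ℕ) (c : ℕ → ℤ) (C a τ s : ℝ) (p : T1 × T1) (D : ℕ → ℝ)
    (h1 : ∀ i, xx a i (p.1 + ((s : ℝ) : T1), p.2) = xx a i p + (D i : T1))
    (h2 : ∀ i < r, |D i| ≤ C / |a|)
    (h3 : |D r - τ * PP a r p| ≤ C / |a|) :
    ‖chi a c r (p.1 + ((s : ℝ) : T1), p.2) -
      chi a c r p * Complex.exp (Complex.I * ((2 * Real.pi * c r * (τ * PP a r p) : ℝ) : ℂ))‖ ≤
      2 * Real.pi * (∑ i ∈ Finset.range (r + 1), |(c i : ℝ)|) * (C / |a|) := by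
  have e1 : chi a c r (p.1 + ((s : ℝ) : T1), p.2) = chi a c r p * Complex.exp (Complex.I *
          ((∑ i ∈ Finset.range (r + 1), 2 * Real.pi * (c i * D i) : ℝ) : ℂ)) := by
    unfold chi
    rw [← prod_shift]
    exact Finset.prod_congr rfl fun i _ => by rw [h1]
  rw [e1, ← mul_sub, norm_mul, norm_chi, one_mul]
  refine (exp_lip _ _).trans ?_
  rw [Finset.sum_range_succ, Finset.sum_range_succ]
  have e2 : ∑ i ∈ Finset.range r, 2 * Real.pi * (c i * D i) + 2 * Real.pi * (c r * D r) -
      2 * Real.pi * c r * (τ * PP a r p) =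
      2 * Real.pi * (∑ i ∈ Finset.range r, (c i : ℝ) * D i + c r * (D r - τ * PP a r p)) := by
    rw [← Finset.mul_sum]
    ring
  rw [e2, abs_mul, abs_of_pos Real.two_pi_pos, mul_assoc (2 * Real.pi)]
  refine mul_le_mul_of_nonneg_left ?_ Real.two_pi_pos.le
  refine (abs_add_le _ _).trans ?_
  rw [add_mul]
  refine add_le_add ?_ ?_
  · refine (Finset.abs_sum_le_sum_abs _ _).trans ?_
    rw [Finset.sum_mul]
    refine Finset.sum_le_sum fun i hi => ?_
    rw [abs_mul]
    exact mul_le_mul_of_nonneg_left (h2 i (Finset.mem_range.1 hi)) (abs_nonneg _)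
  · rw [abs_mul]
    exact mul_le_mul_of_nonneg_left h3 (abs_nonneg _)

/-- The oscillating integral. -/
theorem norm_osc (T b : ℝ) (hb : b ≠ 0) :
    ‖∫ τ in (0 : ℝ)..T, Complex.exp (Complex.I * ((b * τ : ℝ) : ℂ))‖ ≤ 2 / |b| := by
  have hc : (Complex.I * (b : ℂ)) ≠ 0 :=
    mul_ne_zero Complex.I_ne_zero (Complex.ofReal_ne_zero.2 hb)
  have h : ∀ τ : ℝ, Complex.exp (Complex.I * ((b * τ : ℝ) : ℂ)) =
      Complex.exp ((Complex.I * (b : ℂ)) * (τ : ℂ)) := by
    intro τ
    congr 1
    push_cast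
    ring
  simp_rw [h]
  rw [integral_exp_mul_complex hc, norm_div]
  have h2 : ‖Complex.I * (b : ℂ)‖ = |b| := by
    rw [norm_mul, Complex.norm_I, one_mul, Complex.norm_real, Real.norm_eq_abs]
  rw [h2]
  refine div_le_div_of_nonneg_right ?_ (abs_nonneg _)
  refine (norm_sub_le _ _).trans ?_
  rw [← h, ← h, norm_exp_I, norm_exp_I]
  norm_num

/-- The measure of the set where the cosine is small. -/
theorem small_cos (h1 : ∀ x : ℝ, cs (x : T1) = Real.cos (2 * Real.pi * x))
    (η : ℝ) (hη : 0 < η) : ∃ δ : ℝ, 0 < δ ∧ δ < 1 ∧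
      (volume : Measure T1).real {x | |2 * Real.pi * cs x| < δ} ≤ η := by
  have := probT1
  have hcs : Continuous cs := Complex.continuous_re.comp (ContinuousMap.continuous _)
  have hm : ∀ n : ℕ, MeasurableSet {x : T1 | |2 * Real.pi * cs x| < 1 / ((n : ℝ) + 2)} := by
    intro n
    exact (isOpen_lt (continuous_const.mul hcs).abs continuous_const).measurableSet
  have hanti : Antitone (fun n : ℕ => {x : T1 | |2 * Real.pi * cs x| < 1 / ((n : ℝ) + 2)}) := by
    intro m n hmn x hx
    have hx' : |2 * Real.pi * cs x| < 1 / ((n : ℝ) + 2) := hx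
    refine lt_of_lt_of_le hx' ?_
    apply one_div_le_one_div_of_le
    · positivity
    · have : (m : ℝ) ≤ n := Nat.cast_le.2 hmn
      linarith
  have hlim := tendsto_measure_iInter_atTop (μ := (volume : Measure T1))
    (s := fun n : ℕ => {x : T1 | |2 * Real.pi * cs x| < 1 / ((n : ℝ) + 2)})
    (fun n => (hm n).nullMeasurableSet) hanti ⟨0, measure_ne_top _ _⟩
  have hz : (volume : Measure T1) (⋂ n : ℕ, {x : T1 | |2 * Real.pi * cs x| < 1 / ((n : ℝ) + 2)}) =
      0 := by
    have hsub : (⋂ n : ℕ, {x : T1 | |2 * Real.pi * cs x| < 1 / ((n : ℝ) + 2)}) ⊆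
        ⋃ k : ℤ, {(((2 * (k : ℝ) + 1) / 4 : ℝ) : T1)} := by
      intro x hx
      rw [Set.mem_iInter] at hx
      have h0 : cs x = 0 := by
        by_contra hne
        have hpos : 0 < |2 * Real.pi * cs x| :=
          abs_pos.2 (mul_ne_zero Real.two_pi_pos.ne' hne)
        obtain ⟨n, hn⟩ := exists_nat_one_div_lt hpos
        have h3 := hx n
        have h3' : |2 * Real.pi * cs x| < 1 / ((n : ℝ) + 2) := h3
        have h4 : 1 / ((n : ℝ) + 2) ≤ 1 / ((n : ℝ) + 1) := by
          apply one_div_le_one_div_of_le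
          · positivity
          · linarith
        linarith
      induction x using QuotientAddGroup.induction_on with
      | H y =>
        rw [h1, Real.cos_eq_zero_iff] at h0
        obtain ⟨k, hk⟩ := h0
        rw [Set.mem_iUnion]
        refine ⟨k, ?_⟩
        rw [Set.mem_singleton_iff]
        have : y = (2 * (k : ℝ) + 1) / 4 := by
          have hpi := Real.pi_pos
          have h5 : Real.pi * (2 * y) = Real.pi * ((2 * (k : ℝ) + 1) / 2) := by
            linarith
          have h6 := mul_left_cancel₀ hpi.ne' h5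
          linarith
        rw [this]
    refine measure_mono_null hsub (measure_iUnion_null fun k => ?_)
    have h7 := AddCircle.volume_closedBall (T := 1) (x := (((2 * (k : ℝ) + 1) / 4 : ℝ) : T1)) 0
    rw [Metric.closedBall_zero] at h7
    simpa using h7
  rw [hz] at hlim
  have h8 := hlim.eventually (gt_mem_nhds (show (0 : ENNReal) < ENNReal.ofReal η by
    exact ENNReal.ofReal_pos.2 hη))
  obtain ⟨n, hn⟩ := h8.exists
  refine ⟨1 / ((n : ℝ) + 2), by positivity, ?_, ?_⟩
  · rw [div_lt_one (by positivity)]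
    have : (0 : ℝ) ≤ n := Nat.cast_nonneg n
    linarith
  · rw [Measure.real]
    refine ENNReal.toReal_le_of_le_ofReal hη.le ?_
    exact hn.le

/-- The main estimate. -/
theorem key (h1 : S_BAS) (h2 : S_SHIFT) : S_KEY := by
  obtain ⟨_, hcs, _, _, hcont, _, hmp⟩ := h1
  intro r hr c hc ε hε
  have hp1 := probT1
  have hp2 := probT2
  obtain ⟨K, hK⟩ : ∃ K : ℝ, K = ∑ i ∈ Finset.range (r + 1), |(c i : ℝ)| := ⟨_, rfl⟩
  have hK0 : 0 ≤ K := hK ▸ Finset.sum_nonneg fun i _ => abs_nonneg _
  obtain ⟨δ, hδ0, hδ1, hδ⟩ := small_cos hcs (ε / 3 / ((r : ℝ) + 1)) (by positivity)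
  have hpi := Real.pi_pos
  obtain ⟨T, hT⟩ : ∃ T : ℝ, T = 3 / (ε * (Real.pi * δ ^ (r - 1))) := ⟨_, rfl⟩
  have hT0 : 0 < T := hT ▸ by positivity
  obtain ⟨C, hC⟩ := h2 r hr T hT0
  refine ⟨max 1 (3 * (2 * Real.pi * K * |C|) / ε), fun a ha => ?_⟩
  have ha1 : 1 ≤ |a| := le_trans (le_max_left _ _) ha
  have ha2 : 3 * (2 * Real.pi * K * |C|) / ε ≤ |a| := le_trans (le_max_right _ _) ha
  have ha0 : 0 < |a| := by linarith
  obtain ⟨b, hb⟩ : ∃ b : ℝ, b = 2 * Real.pi * c r := ⟨_, rfl⟩
  have hcr : (1 : ℝ) ≤ |(c r : ℝ)| := by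
    have := Int.one_le_abs hc
    exact_mod_cast this
  have hb1 : 2 * Real.pi ≤ |b| := by
    rw [hb, abs_mul, abs_of_pos Real.two_pi_pos]
    nlinarith
  have hb0 : b ≠ 0 := by
    intro h
    rw [h, abs_zero] at hb1
    linarith
  have hchi : Continuous (chi a c r) :=
    continuous_finsetProd _ fun i _ => (ContinuousMap.continuous (fourier (c i))).comp (hcont a i)
  have hcsc : Continuous cs := Complex.continuous_re.comp (ContinuousMap.continuous _)
  have hPP : Continuous (PP a r) :=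
    continuous_finsetProd _ fun i _ => continuous_const.mul (hcsc.comp (hcont a i))
  obtain ⟨F, hF⟩ : ∃ F : ℝ → T1 × T1 → ℂ, F = fun τ p => chi a c r p *
      Complex.exp (Complex.I * ((b * (τ * PP a r p) : ℝ) : ℂ)) := ⟨_, rfl⟩
  have hFc : Continuous (Function.uncurry F) := by
    rw [hF]
    change Continuous fun q : ℝ × (T1 × T1) => chi a c r q.2 *
      Complex.exp (Complex.I * ((b * (q.1 * PP a r q.2) : ℝ) : ℂ))
    refine (hchi.comp continuous_snd).mul (Complex.continuous_exp.comp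
      (continuous_const.mul (Complex.continuous_ofReal.comp
        (continuous_const.mul (continuous_fst.mul (hPP.comp continuous_snd))))))
  have hFn : ∀ τ p, ‖F τ p‖ = 1 := by
    intro τ p
    rw [hF]
    simp only []
    rw [norm_mul, norm_chi, norm_exp_I, one_mul]
  obtain ⟨E, hE⟩ : ∃ E : ℝ, E = 2 * Real.pi * K * (|C| / |a|) := ⟨_, rfl⟩
  have hE3 : E ≤ ε / 3 := by
    rw [hE]
    rw [div_le_iff₀ hε] at ha2
    rw [← mul_div_assoc, div_le_iff₀ ha0]
    linarith
  obtain ⟨I0, hI0⟩ : ∃ I0 : ℂ, I0 = ∫ p, chi a c r p := ⟨_, rfl⟩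
  have hFi : ∀ τ, Integrable (F τ) (volume : Measure (T1 × T1)) := by
    intro τ
    have hc1 : Continuous (F τ) := hFc.comp (Continuous.prodMk_right τ)
    exact Integrable.of_bound hc1.aestronglyMeasurable 1 (ae_of_all _ fun p => (hFn τ p).le)
  -- the shifted integrals
  have hsh : ∀ τ ∈ Set.Ioc 0 T, ‖I0 - ∫ p, F τ p‖ ≤ E := by
    intro τ hτ
    have hadd : (volume : Measure (T1 × T1)).IsAddRightInvariant := by
      rw [Measure.volume_eq_prod]
      infer_instance
    have e1 : ∫ p : T1 × T1, chi a c r (p.1 + ((τ / a ^ (r - 1) : ℝ) : T1), p.2) = I0 := by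
      rw [hI0]
      have e2 := integral_add_right_eq_self (μ := (volume : Measure (T1 × T1))) (chi a c r)
        (((τ / a ^ (r - 1) : ℝ) : T1), (0 : T1))
      rw [← e2]
      refine integral_congr_ae (ae_of_all _ fun p => ?_)
      simp only []
      congr 1
      ext
      · rfl
      · simp
    have hi1 : Integrable (fun p : T1 × T1 => chi a c r (p.1 + ((τ / a ^ (r - 1) : ℝ) : T1), p.2))
        (volume : Measure (T1 × T1)) := by
      have hc1 : Continuous fun p : T1 × T1 =>
          chi a c r (p.1 + ((τ / a ^ (r - 1) : ℝ) : T1), p.2) :=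
        hchi.comp ((continuous_fst.add continuous_const).prodMk continuous_snd)
      exact Integrable.of_bound hc1.aestronglyMeasurable 1
        (ae_of_all _ fun p => (norm_chi _ _ _ _).le)
    rw [← e1, ← integral_sub hi1 (hFi τ)]
    have h3 : ∀ p, ‖chi a c r (p.1 + ((τ / a ^ (r - 1) : ℝ) : T1), p.2) - F τ p‖ ≤ E := by
      intro p
      obtain ⟨D, hD1, hD2, hD3⟩ := hC a ha1 τ (by rw [abs_of_pos hτ.1]; exact hτ.2) p
      have hCC : C / |a| ≤ |C| / |a| := div_le_div_of_nonneg_right (le_abs_self _) ha0.le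
      have h4 := shift_est r c |C| a τ (τ / a ^ (r - 1)) p D hD1 (fun i hi => (hD2 i hi).trans hCC)
        (hD3.trans hCC)
      rw [hE, hK, hF, hb]
      exact h4
    have h5 := norm_integral_le_of_norm_le_const (μ := (volume : Measure (T1 × T1)))
      (f := fun p => chi a c r (p.1 + ((τ / a ^ (r - 1) : ℝ) : T1), p.2) - F τ p) (C := E)
      (ae_of_all _ h3)
    simpa using h5
  -- Fubini
  have hFint : Integrable (Function.uncurry F)
      ((volume.restrict (Set.Ioc 0 T)).prod (volume : Measure (T1 × T1))) :=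
    Integrable.of_bound hFc.aestronglyMeasurable 1 (ae_of_all _ fun q => (hFn q.1 q.2).le)
  have hswap := integral_integral_swap hFint
  have hJ : Integrable (fun τ => ∫ p, F τ p) (volume.restrict (Set.Ioc 0 T)) :=
    hFint.integral_prod_left
  have hvT : (volume : Measure ℝ).real (Set.Ioc 0 T) = T := by
    rw [Measure.real, Real.volume_Ioc, sub_zero, ENNReal.toReal_ofReal hT0.le]
  have hA : ‖∫ τ in Set.Ioc 0 T, (I0 - ∫ p, F τ p)‖ ≤ E * T := by
    have h6 := norm_setIntegral_le_of_norm_le_const (μ := (volume : Measure ℝ))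
      (s := Set.Ioc 0 T) (f := fun τ => I0 - ∫ p, F τ p) (C := E)
      (by rw [Real.volume_Ioc]; exact ENNReal.ofReal_lt_top) hsh
    rwa [hvT] at h6
  have hB : ∫ τ in Set.Ioc 0 T, (I0 - ∫ p, F τ p) =
      (T : ℂ) * I0 - ∫ p, ∫ τ in Set.Ioc 0 T, F τ p := by
    rw [integral_sub (integrable_const _) hJ, hswap]
    congr 1
    rw [setIntegral_const, hvT]
    simp
  -- the bad set
  obtain ⟨Bad, hBad⟩ : ∃ Bad : Set (T1 × T1), Bad = ⋃ i ∈ Finset.Ico 1 r,
      {p : T1 × T1 | |2 * Real.pi * cs (xx a i p)| < δ} := ⟨_, rfl⟩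
  have hBadm : MeasurableSet Bad := by
    rw [hBad]
    refine Finset.measurableSet_biUnion _ fun i _ => ?_
    exact (isOpen_lt (continuous_const.mul (hcsc.comp (hcont a i))).abs
      continuous_const).measurableSet
  have hBadv : (volume : Measure (T1 × T1)).real Bad ≤ ε / 3 := by
    rw [hBad]
    refine (measureReal_biUnion_finset_le _ _).trans ?_
    have h7 : ∀ i ∈ Finset.Ico 1 r, (volume : Measure (T1 × T1)).real
        {p : T1 × T1 | |2 * Real.pi * cs (xx a i p)| < δ} ≤ ε / 3 / ((r : ℝ) + 1) := by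
      intro i _
      refine le_trans (le_of_eq ?_) hδ
      have h8 := (hmp a i).measure_preimage (s := {x : T1 | |2 * Real.pi * cs x| < δ})
        (isOpen_lt (continuous_const.mul hcsc).abs continuous_const).measurableSet.nullMeasurableSet
      rw [Measure.real, Measure.real, ← h8]
      rfl
    refine (Finset.sum_le_sum h7).trans ?_
    rw [Finset.sum_const, Nat.card_Ico, nsmul_eq_mul]
    have h9 : ((r - 1 : ℕ) : ℝ) ≤ (r : ℝ) + 1 := by
      have : ((r - 1 : ℕ) : ℝ) ≤ (r : ℝ) := Nat.cast_le.2 (Nat.sub_le _ _)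
      linarith
    have h10 : (0 : ℝ) < (r : ℝ) + 1 := by positivity
    calc ((r - 1 : ℕ) : ℝ) * (ε / 3 / ((r : ℝ) + 1)) ≤
        ((r : ℝ) + 1) * (ε / 3 / ((r : ℝ) + 1)) :=
          mul_le_mul_of_nonneg_right h9 (by positivity)
      _ = ε / 3 := by field_simp
  have hδr : 0 < δ ^ (r - 1) := pow_pos hδ0 _
  have hpt : ∀ p, ‖∫ τ in Set.Ioc 0 T, F τ p‖ ≤
      Bad.indicator (fun _ => T) p + 2 / (2 * Real.pi * δ ^ (r - 1)) := by
    intro p
    have hs : (0 : ℝ) ≤ 2 / (2 * Real.pi * δ ^ (r - 1)) := by positivity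
    by_cases hpB : p ∈ Bad
    · rw [Set.indicator_of_mem hpB]
      have h6 := norm_setIntegral_le_of_norm_le_const (μ := (volume : Measure ℝ))
        (s := Set.Ioc 0 T) (f := fun τ => F τ p) (C := 1)
        (by rw [Real.volume_Ioc]; exact ENNReal.ofReal_lt_top) (fun τ _ => (hFn τ p).le)
      rw [hvT, one_mul] at h6
      linarith
    · rw [Set.indicator_of_notMem hpB, zero_add]
      have h11 : δ ^ (r - 1) ≤ |PP a r p| := by
        unfold PP
        rw [Finset.abs_prod]
        have h12 : δ ^ (r - 1) = ∏ i ∈ Finset.Ico 1 r, δ := by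
          rw [Finset.prod_const, Nat.card_Ico]
        rw [h12]
        refine Finset.prod_le_prod (fun i _ => hδ0.le) fun i hi => ?_
        by_contra hlt
        apply hpB
        rw [hBad]
        simp only [Set.mem_iUnion]
        exact ⟨i, hi, not_le.1 hlt⟩
      have h13 : PP a r p ≠ 0 := by
        intro h
        rw [h, abs_zero] at h11
        linarith
      have h14 : ∫ τ in Set.Ioc 0 T, F τ p = chi a c r p *
          ∫ τ in (0 : ℝ)..T, Complex.exp (Complex.I * ((b * PP a r p * τ : ℝ) : ℂ)) := by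
        rw [intervalIntegral.integral_of_le hT0.le, ← integral_const_mul]
        refine integral_congr_ae (ae_of_all _ fun τ => ?_)
        rw [hF]
        simp only []
        congr 4
        ring
      rw [h14, norm_mul, norm_chi, one_mul]
      refine (norm_osc T _ (mul_ne_zero hb0 h13)).trans ?_
      rw [abs_mul]
      refine div_le_div_of_nonneg_left (by norm_num) (by positivity) ?_
      exact mul_le_mul hb1 h11 hδr.le (abs_nonneg _)
  have hgint : Integrable (fun p => Bad.indicator (fun _ => T) p +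
      2 / (2 * Real.pi * δ ^ (r - 1))) (volume : Measure (T1 × T1)) :=
    ((integrable_const T).indicator hBadm).add (integrable_const _)
  have hD : ‖∫ p, ∫ τ in Set.Ioc 0 T, F τ p‖ ≤ T * (ε / 3) + 2 / (2 * Real.pi * δ ^ (r - 1)) := by
    refine (norm_integral_le_of_norm_le hgint (ae_of_all _ hpt)).trans ?_
    rw [integral_add ((integrable_const T).indicator hBadm) (integrable_const _),
      integral_indicator hBadm, setIntegral_const, integral_const]
    simp only [smul_eq_mul, probReal_univ, one_mul]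
    have : (volume : Measure (T1 × T1)).real Bad * T ≤ ε / 3 * T :=
      mul_le_mul_of_nonneg_right hBadv hT0.le
    linarith
  have hTe : 2 / (2 * Real.pi * δ ^ (r - 1)) = T * (ε / 3) := by
    rw [hT]
    field_simp
  have hfin : ‖(T : ℂ) * I0‖ ≤ T * ε := by
    have e3 : (T : ℂ) * I0 = (∫ τ in Set.Ioc 0 T, (I0 - ∫ p, F τ p)) +
        ∫ p, ∫ τ in Set.Ioc 0 T, F τ p := by
      rw [hB]
      ring
    rw [e3]
    refine (norm_add_le _ _).trans ?_
    have h15 : E * T ≤ ε / 3 * T := mul_le_mul_of_nonneg_right hE3 hT0.le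
    linarith
  rw [norm_mul, Complex.norm_real, Real.norm_eq_abs, abs_of_pos hT0] at hfin
  have := le_of_mul_le_mul_left hfin hT0
  rw [hI0] at this
  exact this

end Pool.Agent.W215.MM
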